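import Pool.Agent.H82.AJ.Sub
import Pool.Agent.H82.AJ.Law
import Pool.Agent.H3.MQ.C

/-!
# The formula of Bloch and Kato over all the number fields in an infinite totally real extension

Let `g` be the newform of weight `2` and level `15`, and `D` a squarefree integer `≡ 1, 49` modulo `60`.
The twist `g ⊗ χ_D` belongs to the elliptic curve `E_D : y² = x³ - 12987 D² x - 263466 D³`, which has no
complex multiplication. For a totally real abelian field `F` the base change of `g ⊗ χ_D` to `F` is a
Hilbert newform of parallel weight `2` with trivial central character, with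
`L((g ⊗ χ_D)_F, s) = L(E_D/F, s + 1)`, and its Galois representation for `λ = 2` is `V_2 E_D`.

`Good D` is an explicit criterion; the proportion of the good `D` in the class is exactly
`c₁ = ∏_{i ≥ 1} (1 - 2 ^ {-i}) = 0.288…`.

* For every good `D ≠ 1` there are `M_0 < M_1 < …` in the class, independent modulo squares, such that for
  all the number fields `F` in the infinite totally real extension `ℚ(√M_0, √M_1, …)` the formula holds for
  the base change of `g ⊗ χ_D` to `F`, with both sides zero.
* The choices are not sparse: for a fixed field `F = ℚ(√M_1, …, √M_k)` such that all the squarefree parts of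
  the numbers `D ∏_{i ∈ T} M_i` are good, the formula holds in this way for the base change to `F(√N)` for
  exactly the proportion `c₁ ^ (2 ^ k)` of all the `N` of the class given by the same criterion.

The proofs use the two-descents, the central values and the joint distribution of the twists over `ℚ` and
the Artin formalism of modules of helper3 (`Pool.Agent.H3.MQ`) and of earlier runs.
-/

set_option autoImplicit false

namespace Pool.Agent.Results.MP_6e2fc3_nt.InfiniteRealExtensions

open NumberField Finset Filter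
open Pool.Agent.N856.MT (Minimal Lser)
open Pool.Agent.Y667.BKP (H1f)
open scoped Classical

/-- the curve `E_D : y² = x³ - 12987 D² x - 263466 D³` over the field `K` -/
def curve (K : Type) [Field K] (D : ℕ) : WeierstrassCurve K :=
  { a₁ := 0, a₂ := 0, a₃ := 0, a₄ := ((-12987 * (D : ℤ) ^ 2 : ℤ) : K),
    a₆ := ((-263466 * (D : ℤ) ^ 3 : ℤ) : K) }

/-- Both sides of the formula of Bloch and Kato for `V_2 E` are zero: the Bloch-Kato Selmer group
`H¹_f(K, V_2 E)` is zero (and `E(K)` is finite); the Euler product `Lser M` of `E`, formed with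
minimal models `M` at all primes, has a meromorphic continuation to the plane which is analytic and
not zero at the centre `1`, and every other analytic continuation to a connected open set which
contains `1` is not zero there. -/
def FormulaZero {K : Type} [Field K] [NumberField K] (E : WeierstrassCurve K) : Prop :=
  (∀ x : H1f 2 E, x = 0) ∧ Finite E.toAffine.Point ∧
  ∀ M : {P : Ideal (𝓞 K) // P.IsPrime ∧ P ≠ ⊥} → WeierstrassCurve (𝓞 K), Minimal E M →
    (∃ Λ : ℂ → ℂ, (∀ s, MeromorphicAt Λ s) ∧ AnalyticAt ℂ Λ 1 ∧ Λ 1 ≠ 0 ∧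
      ∀ s : ℂ, 3 / 2 < s.re → Λ s = Lser M s) ∧
    ∀ (U : Set ℂ) (f : ℂ → ℂ), IsOpen U → IsConnected U → (1 : ℂ) ∈ U →
      {s : ℂ | 3 / 2 < s.re} ⊆ U → AnalyticOnNhd ℂ f U →
      (∀ s : ℂ, 3 / 2 < s.re → f s = Lser M s) → f 1 ≠ 0

/-- the fields `F = ℚ(√M_1, …, √M_k)` (in any cyclotomic field which contains the roots) are totally
real, and the formula holds for `E_D` over `F`, with both sides zero -/
def HoldsOver {k : ℕ} (M : Fin k → ℕ) (D : ℕ) : Prop :=
  ∀ (n : ℕ) [NeZero n] (L : Type) [Field L] [NumberField L] [IsCyclotomicExtension {n} ℚ L]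
    (r : Fin k → L), (∀ i, r i ^ 2 = (M i : L)) →
    IsTotallyReal (IntermediateField.adjoin ℚ (Set.range r)) ∧
    FormulaZero (curve (IntermediateField.adjoin ℚ (Set.range r)) D)

/-- the class: squarefree, `≡ 1` or `49` modulo `60` -/
def Cls (D : ℕ) : Prop := Squarefree D ∧ (D % 60 = 1 ∨ D % 60 = 49)

/-- the criterion -/
def Good15 (D : ℕ) : Prop := ∀ d : ℕ, d ∣ D →
  (∀ p : ℕ, p.Prime → p ∣ D → ¬ p ∣ d → jacobiSym d p = 1) →
  (∀ p : ℕ, p.Prime → p ∣ d → jacobiSym (-((D / d : ℕ) : ℤ)) p = 1) →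
  jacobiSym d 5 = 1 → d = 1

/-- all the squarefree parts `e` of the numbers `D ∏_{i ∈ T} M_i` are good and different from `1` -/
def AllGood {k : ℕ} (M : Fin k → ℕ) (D : ℕ) : Prop := ∀ (T : Finset (Fin k)) (e g : ℕ),
  Squarefree e → D * ∏ i ∈ T, M i = e * g ^ 2 → Good15 e ∧ e ≠ 1

/-- the `M_i` are independent modulo squares -/
def Indep {ι : Type} (M : ι → ℕ) : Prop :=
  ∀ T : Finset ι, T.Nonempty → ¬ IsSquare (∏ i ∈ T, M i)

/-- the proportion of the `N` of the class which have the property `P` is `c` -/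
def Proportion (P : ℕ → Prop) (c : ℝ) : Prop :=
  Tendsto (fun X : ℕ => (((Icc 1 X).filter fun N => Cls N ∧ P N).card : ℝ) /
    (((Icc 1 X).filter fun N => Cls N).card : ℝ)) atTop (nhds c)

/-- the constant `(1 - 1/2) (1 - 1/4) (1 - 1/8) ⋯` -/
noncomputable def c₁ : ℝ := ∏' i : ℕ, (1 - (1 / 2 : ℝ) ^ (i + 1))

theorem holds_of {k : ℕ} {M : Fin k → ℕ} {D : ℕ} (hM : ∀ i, M i % 60 = 1 ∨ M i % 60 = 49)
    (hD : Cls D) (hG : AllGood M D) : HoldsOver M D := by
  have hM0 : ∀ i, 0 < M i := fun i => by have := hM i; omega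
  have hD0 : 0 < D := Nat.pos_of_ne_zero hD.1.ne_zero
  have hD1 : (D : ℤ) ≠ 0 := by exact_mod_cast hD0.ne'
  intro n _ L _ _ _ r hr
  have hr' : ∀ i, r i ^ 2 = (((M i : ℕ) : ℤ) : L) := fun i => by rw [hr i, Int.cast_natCast]
  obtain ⟨h1, h2, h3⟩ := Pool.Agent.H3.MQ.main2 (a₀ := -12987) (b₀ := -263466)
    (by norm_num) (Ok := fun e => ∃ D' : ℕ, e = D' ∧ Cls D' ∧ D' ≠ 1 ∧ Good15 D')
    (by
      rintro e - ⟨D', rfl, h1, h2, h3⟩
      exact Pool.Agent.H3.MQ.q15 h1.1 h1.2 h2 h3) (d := D) hD1 (n := n) L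
    (r := r) (m := fun i => (M i : ℤ))
    hr' (fun i => by exact_mod_cast (hM0 i).ne') (by
      intro T e g he heg
      have hP : 0 < ∏ i ∈ T, M i := prod_pos fun i _ => hM0 i
      have hpos : (0 : ℤ) < (D : ℤ) * ∏ i ∈ T, ((M i : ℕ) : ℤ) := by
        rw [← Nat.cast_prod]
        exact_mod_cast Nat.mul_pos hD0 hP
      have he0 : 0 < e := by
        rw [heg] at hpos
        by_contra h
        have := mul_nonpos_of_nonpos_of_nonneg (not_lt.1 h) (sq_nonneg g)
        omega
      obtain ⟨e', rfl⟩ := Int.eq_ofNat_of_zero_le he0.le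
      have heg' : D * ∏ i ∈ T, M i = e' * g.natAbs ^ 2 := by
        have : ((D * ∏ i ∈ T, M i : ℕ) : ℤ) = ((e' * g.natAbs ^ 2 : ℕ) : ℤ) := by
          push_cast
          rw [sq_abs]
          exact heg
        exact_mod_cast this
      have he' : Squarefree e' := Int.squarefree_natCast.1 he
      obtain ⟨h1, h2⟩ := hG T e' g.natAbs he' heg'
      refine ⟨e', rfl, ⟨he', ?_⟩, h2, h1⟩
      have h3 : Pool.Agent.H757_X15.DD.Fm (e' * g.natAbs ^ 2) := by
        rw [← heg']
        exact Pool.Agent.H3.MQ.cls_mul_dec hD.2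
          (Pool.Agent.H3.MQ.fm_prod M (fun i => hM i) T)
      exact Pool.Agent.H3.MQ.cls_part h3)
  exact ⟨Pool.Agent.H3.MQ.tot_real (Pool.Agent.H3.MQ.rgen_sq r hr')
    (fun i => by exact_mod_cast hM0 i) (Pool.Agent.H3.MQ.gen_top r), h2, h1, h3⟩

/-- **The formula of Bloch and Kato over all the number fields in an infinite totally real extension.**
(1) For every good `D ≠ 1` of the class there are `M_0 < M_1 < …` in the class, independent modulo squares,
such that all the number fields which are generated by square roots of finitely many products of the `M_i`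
are totally real, and the formula holds for `E_D` over them, with both sides zero. (2) If the squarefree
parts of the numbers `D ∏_{i ∈ T} M_i` are good, this is so for `ℚ(√M_1, …, √M_k)`; and then also for
`D` and `N, M_1, …, M_k` for exactly the proportion `c₁ ^ (2 ^ k)` of the `N` of the class. (3) Exactly the
proportion `c₁` of the `D` of the class is good and not `1`. -/
theorem result :
    (∀ D : ℕ, Cls D → Good15 D → D ≠ 1 → ∃ M : ℕ → ℕ, StrictMono M ∧ (∀ i, Cls (M i)) ∧ Indep M ∧
      ∀ (k : ℕ) (T : Fin k → Finset ℕ), HoldsOver (fun i => ∏ l ∈ T i, M l) D) ∧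
    (∀ (k : ℕ) (M : Fin k → ℕ) (D : ℕ), (∀ i, Cls (M i)) → Indep M → Cls D → AllGood M D →
      HoldsOver M D ∧ Proportion (fun N => AllGood (Fin.cons N M : Fin (k + 1) → ℕ) D ∧
        HoldsOver (Fin.cons N M : Fin (k + 1) → ℕ) D) (c₁ ^ 2 ^ k)) ∧
    Proportion (fun D => Good15 D ∧ D ≠ 1) c₁ ∧
    0.2887 < c₁ ∧ c₁ < 0.2888 ∧
    -- the fields exist
    (∀ (k : ℕ) (M : Fin k → ℕ), (∀ i, M i ≠ 0) → ∀ (n : ℕ) [NeZero n], (∀ i, 8 * M i ∣ n) →
      ∀ (L : Type) [Field L] [NumberField L] [IsCyclotomicExtension {n} ℚ L] (i : Fin k),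
        ∃ r : L, r ^ 2 = (M i : L)) := by
  refine ⟨?_, ?_, ?_, Pool.Agent.H757_X15.DD.t_LA1.2.2.2.1,
    Pool.Agent.H757_X15.DD.t_LA1.2.2.2.2, ?_⟩
  · intro D hD hG h1
    obtain ⟨M, hM1, hM2, hM3, hM4⟩ := Pool.Agent.H82.AJ.tower hD hG h1
    refine ⟨M, hM1, hM2, hM3, fun k T => holds_of (fun i => ?_) hD ?_⟩
    · exact Pool.Agent.H82.AJ.fm_sets (fun l => (hM2 l).2) (T i)
    · exact Pool.Agent.H82.AJ.sub_all (fun l => (hM2 l).1.ne_zero) hM4 T
  · intro k M D hM hI hD hG
    refine ⟨holds_of (fun i => (hM i).2) hD hG, ?_⟩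
    refine (Pool.Agent.H82.AJ.law_ext hM hD hI hG).congr fun X => ?_
    congr 2
    · congr 1
      ext N
      simp only [mem_filter]
      refine and_congr_right fun _ => and_congr_right fun hN => ⟨fun h => ⟨h, ?_⟩, fun h => h.1⟩
      refine holds_of (fun i => ?_) hD h
      refine Fin.cases ?_ (fun i => ?_) i
      · rw [Fin.cons_zero]
        exact hN.2
      · rw [Fin.cons_succ]
        exact (hM i).2
    · congr 1
      ext D
      rw [mem_filter, mem_filter]
      exact Iff.rfl
  · have h := Pool.Agent.H3.MQ.prop15 (k := 0) (fun i => i.elim0) (fun i => i.elim0) (by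
      intro T hT
      obtain ⟨i, -⟩ := hT
      exact i.elim0)
    rw [pow_zero, pow_one] at h
    refine h.congr fun X => ?_
    congr 2
    · congr 1
      ext D
      simp only [mem_filter]
      refine and_congr_right fun _ => and_congr_right fun hD => ⟨fun h => ?_, fun h T e g he hg => ?_⟩
      · exact h ∅ D 1 hD.1 (by rw [prod_empty, one_pow])
      · have hT : T = ∅ := by
          ext i
          exact i.elim0
        rw [hT, prod_empty, mul_one] at hg
        have h2 : IsUnit g := hD.1 g ⟨e, by rw [hg]; ring⟩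
        rw [Nat.isUnit_iff] at h2
        rw [h2, one_pow, mul_one] at hg
        rw [← hg]
        exact h
    · congr 1
      ext D
      rw [mem_filter, mem_filter]
      exact Iff.rfl
  · intro k M hM n _ hn L _ _ _ i
    obtain ⟨r, hr⟩ := Pool.Agent.H3.MQ.roots_exist (fun i => (M i : ℤ))
      (fun i => by exact_mod_cast hM i) n (fun i => by exact_mod_cast hn i) L i
    exact ⟨r, by rw [hr, Int.cast_natCast]⟩

end Pool.Agent.Results.MP_6e2fc3_nt.InfiniteRealExtensions
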